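import Pool.Agent.H270R2.UM.Stubs
import Pool.Agent.H735TW.TCOM

/-!
# Task COMZ: nilpotents in the commutant of an order zero map
-/

set_option autoImplicit false
set_option linter.unusedSectionVars false

namespace Pool.Agent.H270R2.UM

open Filter Topology Pool.Agent.H327R4.Pure Pool.Agent.H735TW

universe u

namespace COMZ

open Pool.Agent.H735TW.COM

section oz

variable {A : Type u} [CStarAlgebra A] [PartialOrder A] [StarOrderedRing A]
  {b : ℕ} {n : Fin b → ℕ} (φ : FD n →ₗ[ℂ] A)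

theorem VV_star (v : Fin b → A) : star (VV φ v) = VV φ (fun i => star (v i)) := by
  unfold VV
  rw [star_sum]
  refine Finset.sum_congr rfl fun i _ => ?_
  rw [star_sum]
  refine Finset.sum_congr rfl fun s _ => ?_
  rw [star_mul, star_mul, star_star, mul_assoc]

variable (hφ : OZ φ)
include hφ

theorem VV_mul (v w : Fin b → A) :
    VV φ v * VV φ w = ∑ i : Fin b, ∑ s : Fin (n i),
      r φ i s * (v i * (G φ i s * G φ i s) * w i) * star (r φ i s) := by
  conv_lhs => rw [show VV φ v * VV φ w = (∑ i : Fin b, ∑ s : Fin (n i),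
    r φ i s * v i * star (r φ i s)) * VV φ w from rfl]
  rw [Finset.sum_mul]
  refine Finset.sum_congr rfl fun i _ => ?_
  rw [Finset.sum_mul]
  refine Finset.sum_congr rfl fun s _ => ?_
  have : star (r φ i s) * VV φ w = G φ i s * G φ i s * w i * star (r φ i s) := by
    unfold VV
    rw [Finset.mul_sum, Finset.sum_eq_single i]
    · rw [Finset.mul_sum, Finset.sum_eq_single s]
      · rw [← mul_assoc, ← mul_assoc, star_r_mul_r_same φ hφ, if_pos rfl]
      · intro t _ ht
        rw [← mul_assoc, ← mul_assoc, star_r_mul_r_same φ hφ, if_neg (Ne.symm ht), zero_mul,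
          zero_mul]
      · simp
    · intro j _ hj
      rw [Finset.mul_sum]
      refine Finset.sum_eq_zero fun t _ => ?_
      rw [← mul_assoc, ← mul_assoc, star_r_mul_r_diff φ hφ (Ne.symm hj), zero_mul, zero_mul]
    · simp
  rw [mul_assoc, this]
  simp only [mul_assoc]

theorem r_norm (i : Fin b) (s : Fin (n i)) : ‖r φ i s‖ ≤ 1 := by
  have h1 : star (r φ i s) * r φ i s = G φ i s * G φ i s := by
    rw [star_r_mul_r_same φ hφ, if_pos rfl]
  have h2 : ‖star (r φ i s) * r φ i s‖ ≤ 1 := by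
    apply (CStarAlgebra.norm_le_one_iff_of_nonneg _ (star_mul_self_nonneg _)).mpr
    rw [h1]
    exact GG_le_one φ hφ i s
  rw [CStarRing.norm_star_mul_self] at h2
  nlinarith [norm_nonneg (r φ i s)]

theorem r_G (i : Fin b) (s : Fin (n i)) : r φ i s * G φ i s = φ 1 * r φ i s := by
  rw [r, G, mulE φ hφ, E_mul_same, if_pos (oo_eq s s)]

theorem G_star_r (i : Fin b) (s : Fin (n i)) :
    G φ i s * star (r φ i s) = star (r φ i s) * φ 1 := by
  have h := congrArg star (r_G φ hφ i s)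
  rw [star_mul, star_mul, (IsSelfAdjoint.of_nonneg (G_nonneg φ hφ i s)).star_eq,
    (IsSelfAdjoint.of_nonneg (h_nonneg φ hφ)).star_eq] at h
  exact h

/-- `∑ r g² r* = h⁴` -/
theorem sum_rGGr : ∑ i : Fin b, ∑ s : Fin (n i),
    r φ i s * (G φ i s * G φ i s) * star (r φ i s) = φ 1 * φ 1 * (φ 1 * φ 1) := by
  have e : ∀ (i : Fin b) (s : Fin (n i)), r φ i s * (G φ i s * G φ i s) * star (r φ i s) =
      φ 1 * (r φ i s * star (r φ i s)) * φ 1 := by
    intro i s
    calc r φ i s * (G φ i s * G φ i s) * star (r φ i s)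
        = (r φ i s * G φ i s) * (G φ i s * star (r φ i s)) := by simp only [mul_assoc]
      _ = (φ 1 * r φ i s) * (star (r φ i s) * φ 1) := by rw [r_G φ hφ, G_star_r φ hφ]
      _ = _ := by simp only [mul_assoc]
  calc _ = ∑ i : Fin b, ∑ s : Fin (n i), φ 1 * (r φ i s * star (r φ i s)) * φ 1 :=
        Finset.sum_congr rfl fun i _ => Finset.sum_congr rfl fun s _ => e i s
    _ = φ 1 * (∑ i : Fin b, ∑ s : Fin (n i), r φ i s * star (r φ i s)) * φ 1 := by
        rw [Finset.mul_sum, Finset.sum_mul]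
        refine Finset.sum_congr rfl fun i _ => ?_
        rw [Finset.mul_sum, Finset.sum_mul]
    _ = _ := by rw [sum_r φ hφ]; simp only [mul_assoc]

end oz

section tr

variable {A : Type u} [CStarAlgebra A] [PartialOrder A] [StarOrderedRing A]

theorem norm_le_of (v : A) (h : star v * v ≤ 1) : ‖v‖ ≤ 1 := by
  have h2 : ‖star v * v‖ ≤ 1 :=
    (CStarAlgebra.norm_le_one_iff_of_nonneg _ (star_mul_self_nonneg _)).mpr h
  rw [CStarRing.norm_star_mul_self] at h2
  nlinarith [norm_nonneg v]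

/-- `x g² x` is small -/
theorem b1 (hTB : StTB.{u}) (T : Tr A) (hT : St T) (x g : A) (e : ℝ) (hx : x * x = 0)
    (nx : ‖x‖ ≤ 1) (ng : ‖g‖ ≤ 1) (hc : n2 T (x * g - g * x) ≤ e) :
    n2 T (x * (g * g) * x) ≤ 2 * e := by
  obtain ⟨t1, t2, t3, t4, t5, t6, t7, t8, t9, t10, t11, t12, t13, t14, t15, t16⟩ := hTB A T hT
  have e1 : x * (g * g) * x = x * x * g * g - (x * (x * g - g * x) * g + x * (g * (x * g - g * x))) := by
    noncomm_ring
  rw [e1, hx, zero_mul, zero_mul, zero_sub]
  have h0 : n2 T (-(x * (x * g - g * x) * g + x * (g * (x * g - g * x)))) =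
      n2 T (x * (x * g - g * x) * g + x * (g * (x * g - g * x))) := by
    have := t5 (-1) (x * (x * g - g * x) * g + x * (g * (x * g - g * x)))
    rw [neg_one_smul, norm_neg, norm_one, one_mul] at this
    exact this
  rw [h0]
  have p1 : n2 T (x * (x * g - g * x) * g) ≤ n2 T (x * g - g * x) := by
    calc n2 T (x * (x * g - g * x) * g) ≤ n2 T (x * (x * g - g * x)) * ‖g‖ := t8 _ _
      _ ≤ n2 T (x * (x * g - g * x)) * 1 := mul_le_mul_of_nonneg_left ng (t1 _)
      _ = n2 T (x * (x * g - g * x)) := mul_one _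
      _ ≤ ‖x‖ * n2 T (x * g - g * x) := t7 _ _
      _ ≤ 1 * n2 T (x * g - g * x) := mul_le_mul_of_nonneg_right nx (t1 _)
      _ = _ := one_mul _
  have p2 : n2 T (x * (g * (x * g - g * x))) ≤ n2 T (x * g - g * x) := by
    calc n2 T (x * (g * (x * g - g * x))) ≤ ‖x‖ * n2 T (g * (x * g - g * x)) := t7 _ _
      _ ≤ 1 * n2 T (g * (x * g - g * x)) := mul_le_mul_of_nonneg_right nx (t1 _)
      _ = n2 T (g * (x * g - g * x)) := one_mul _
      _ ≤ ‖g‖ * n2 T (x * g - g * x) := t7 _ _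
      _ ≤ 1 * n2 T (x * g - g * x) := mul_le_mul_of_nonneg_right ng (t1 _)
      _ = _ := one_mul _
  have p3 := t3 (x * (x * g - g * x) * g) (x * (g * (x * g - g * x)))
  linarith

/-- commutator with the square -/
theorem b2 (hTB : StTB.{u}) (T : Tr A) (hT : St T) (x g : A) (e : ℝ)
    (ng : ‖g‖ ≤ 1) (hc : n2 T (x * g - g * x) ≤ e) :
    n2 T (x * (g * g) - g * g * x) ≤ 2 * e := by
  obtain ⟨t1, t2, t3, t4, t5, t6, t7, t8, t9, t10, t11, t12, t13, t14, t15, t16⟩ := hTB A T hT
  have e1 : x * (g * g) - g * g * x = (x * g - g * x) * g + g * (x * g - g * x) := by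
    noncomm_ring
  rw [e1]
  have p1 : n2 T ((x * g - g * x) * g) ≤ n2 T (x * g - g * x) := by
    calc n2 T ((x * g - g * x) * g) ≤ n2 T (x * g - g * x) * ‖g‖ := t8 _ _
      _ ≤ n2 T (x * g - g * x) * 1 := mul_le_mul_of_nonneg_left ng (t1 _)
      _ = _ := mul_one _
  have p2 : n2 T (g * (x * g - g * x)) ≤ n2 T (x * g - g * x) := by
    calc n2 T (g * (x * g - g * x)) ≤ ‖g‖ * n2 T (x * g - g * x) := t7 _ _
      _ ≤ 1 * n2 T (x * g - g * x) := mul_le_mul_of_nonneg_right ng (t1 _)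
      _ = _ := one_mul _
  have p3 := t3 ((x * g - g * x) * g) (g * (x * g - g * x))
  linarith

theorem b3 (hTB : StTB.{u}) (T : Tr A) (hT : St T) (y : A) (h0 : 0 ≤ y) (h1 : y ≤ 1) :
    n2 T y ^ 2 ≤ re T y := by
  obtain ⟨t1, t2, t3, t4, t5, t6, t7, t8, t9, t10, t11, t12, t13, t14, t15, t16⟩ := hTB A T hT
  rw [t2, (IsSelfAdjoint.of_nonneg h0).star_eq]
  exact t16 y y h0 h1 h0

/-- `g² - x^* g² x - x g² x^*` is small -/
theorem b4 (hTB : StTB.{u}) (T : Tr A) (hT : St T) (x g : A) (e : ℝ)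
    (hq : star x * x + x * star x ≤ 1) (nx : ‖x‖ ≤ 1) (hg : IsSelfAdjoint g) (ng : ‖g‖ ≤ 1)
    (hc : n2 T (x * g - g * x) ≤ e)
    (hr : re T (1 - (star x * x + x * star x)) ≤ e) :
    n2 T (g * g - (star x * (g * g) * x + x * (g * g) * star x)) ≤ 4 * e + Real.sqrt e := by
  obtain ⟨t1, t2, t3, t4, t5, t6, t7, t8, t9, t10, t11, t12, t13, t14, t15, t16⟩ := hTB A T hT
  have e1 : g * g - (star x * (g * g) * x + x * (g * g) * star x) =
      (1 - (star x * x + x * star x)) * (g * g) +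
        (star x * (x * (g * g) - g * g * x) + x * (star x * (g * g) - g * g * star x)) := by
    noncomm_ring
  rw [e1]
  have ngg : ‖g * g‖ ≤ 1 := by
    refine (norm_mul_le _ _).trans ?_
    nlinarith [norm_nonneg g]
  have nsx : ‖star x‖ ≤ 1 := by rw [norm_star]; exact nx
  have hc' : n2 T (star x * g - g * star x) ≤ e := by
    have h1 : star x * g - g * star x = -star (x * g - g * x) := by
      rw [star_sub, star_mul, star_mul, hg.star_eq]
      noncomm_ring
    have h2 := t5 (-1) (star (x * g - g * x))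
    rw [neg_one_smul, norm_neg, norm_one, one_mul, t6] at h2
    rw [h1, h2]
    exact hc
  have p1 : n2 T (star x * (x * (g * g) - g * g * x)) ≤ 2 * e := by
    calc _ ≤ ‖star x‖ * n2 T (x * (g * g) - g * g * x) := t7 _ _
      _ ≤ 1 * n2 T (x * (g * g) - g * g * x) := mul_le_mul_of_nonneg_right nsx (t1 _)
      _ = n2 T (x * (g * g) - g * g * x) := one_mul _
      _ ≤ 2 * e := b2 hTB T hT x g e ng hc
  have p2 : n2 T (x * (star x * (g * g) - g * g * star x)) ≤ 2 * e := by
    calc _ ≤ ‖x‖ * n2 T (star x * (g * g) - g * g * star x) := t7 _ _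
      _ ≤ 1 * n2 T (star x * (g * g) - g * g * star x) := mul_le_mul_of_nonneg_right nx (t1 _)
      _ = n2 T (star x * (g * g) - g * g * star x) := one_mul _
      _ ≤ 2 * e := b2 hTB T hT (star x) g e ng hc'
  have p3 : n2 T ((1 - (star x * x + x * star x)) * (g * g)) ≤ Real.sqrt e := by
    calc _ ≤ n2 T (1 - (star x * x + x * star x)) * ‖g * g‖ := t8 _ _
      _ ≤ n2 T (1 - (star x * x + x * star x)) * 1 := mul_le_mul_of_nonneg_left ngg (t1 _)
      _ = n2 T (1 - (star x * x + x * star x)) := mul_one _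
      _ ≤ Real.sqrt e := by
        apply Real.le_sqrt_of_sq_le
        refine (b3 hTB T hT _ (sub_nonneg.mpr hq) ?_).trans hr
        rw [sub_le_self_iff]
        exact add_nonneg (star_mul_self_nonneg _) (mul_star_self_nonneg _)
  have p4 := t3 ((1 - (star x * x + x * star x)) * (g * g))
    (star x * (x * (g * g) - g * g * x) + x * (star x * (g * g) - g * g * star x))
  have p5 := t3 (star x * (x * (g * g) - g * g * x)) (x * (star x * (g * g) - g * g * star x))
  linarith

theorem n2_rr (hTB : StTB.{u}) (T : Tr A) (hT : St T) (r y : A) (nr : ‖r‖ ≤ 1) :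
    n2 T (r * y * star r) ≤ n2 T y := by
  obtain ⟨t1, t2, t3, t4, t5, t6, t7, t8, t9, t10, t11, t12, t13, t14, t15, t16⟩ := hTB A T hT
  have nr' : ‖star r‖ ≤ 1 := by rw [norm_star]; exact nr
  calc n2 T (r * y * star r) ≤ n2 T (r * y) * ‖star r‖ := t8 _ _
    _ ≤ n2 T (r * y) * 1 := mul_le_mul_of_nonneg_left nr' (t1 _)
    _ = n2 T (r * y) := mul_one _
    _ ≤ ‖r‖ * n2 T y := t7 _ _
    _ ≤ 1 * n2 T y := mul_le_mul_of_nonneg_right nr (t1 _)
    _ = _ := one_mul _

end tr

end COMZ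

open Pool.Agent.H735TW.COM COMZ in
theorem t_COMZ (hTB : StTB.{u}) : StCOMZ.{u} := by
  intro A _ _ _ hNIL b n φ hφ m x ε hε
  obtain ⟨N, hN⟩ : ∃ N : ℝ, N = ∑ i : Fin b, ∑ s : Fin (n i), (1 : ℝ) := ⟨_, rfl⟩
  obtain ⟨M, hM⟩ : ∃ M : Fin m → ℝ, ∀ j, M j = ∑ i : Fin b, ∑ s : Fin (n i), ∑ t : Fin (n i),
    ‖x j i s t‖ := ⟨fun j => _, fun j => rfl⟩
  have hN0 : 0 ≤ N := by
    rw [hN]
    exact Finset.sum_nonneg fun i _ => Finset.sum_nonneg fun s _ => zero_le_one
  have hM0 : ∀ j, 0 ≤ M j := fun j => by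
    rw [hM]
    exact Finset.sum_nonneg fun i _ => Finset.sum_nonneg fun s _ => Finset.sum_nonneg fun t _ =>
      norm_nonneg _
  obtain ⟨C, hC⟩ : ∃ C : ℝ, C = 50 * N ^ 2 + 2 * N + ∑ j, M j + 1 := ⟨_, rfl⟩
  have hS0 : 0 ≤ ∑ j, M j := Finset.sum_nonneg fun j _ => hM0 j
  have hC0 : 0 < C := by rw [hC]; positivity
  obtain ⟨e, he⟩ : ∃ e : ℝ, e = ε / (C + ε) := ⟨_, rfl⟩
  have he0 : 0 < e := by rw [he]; positivity
  have he1 : e ≤ 1 := by
    rw [he, div_le_one (by linarith)]
    linarith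
  have heC : e * C ≤ ε := by
    rw [he, div_mul_eq_mul_div, div_le_iff₀ (by linarith)]
    nlinarith
  have key : ∀ i : Fin b, ∃ v : A, (v * v = 0 ∧ star v * v + v * star v ≤ 1) ∧
      ∀ T : Tr A, St T → ∀ s : Fin (n i), re T (1 - (star v * v + v * star v)) ≤ e ∧
        n2 T (v * G φ i s - G φ i s * v) ≤ e := by
    intro i
    by_cases hi : 0 < n i
    · obtain ⟨v, h1, h2, h3⟩ := hNIL (G φ i ⟨0, hi⟩) e (G_nonneg φ hφ i _) (G_le_one φ hφ i _) he0
      exact ⟨v, ⟨h1, h2⟩, fun T hT s => h3 T hT⟩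
    · refine ⟨0, ⟨by simp, by simp⟩,
        fun T hT s => absurd (lt_of_le_of_lt (Nat.zero_le _) s.isLt) hi⟩
  choose v hv hvT using key
  have hvv : ∀ i, star (v i) * v i ≤ 1 := fun i =>
    le_trans (le_add_of_nonneg_right (mul_star_self_nonneg _)) (hv i).2
  have nv : ∀ i, ‖v i‖ ≤ 1 := fun i => norm_le_of (v i) (hvv i)
  have nG : ∀ (i : Fin b) (s : Fin (n i)), ‖G φ i s‖ ≤ 1 := fun i s => by
    apply norm_le_of
    rw [(IsSelfAdjoint.of_nonneg (G_nonneg φ hφ i s)).star_eq]
    exact GG_le_one φ hφ i s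
  have nr := r_norm φ hφ
  refine ⟨VV φ v, ?_, fun T hT => ⟨?_, ?_, fun j => ?_⟩⟩
  · rw [VV_star, VV_mul φ hφ]
    refine le_trans ?_ (hh_le_one φ hφ)
    rw [← sum_r φ hφ]
    refine Finset.sum_le_sum fun i _ => Finset.sum_le_sum fun s _ => ?_
    have h1 : star (v i) * (G φ i s * G φ i s) * v i ≤ 1 := by
      have := star_left_conjugate_le_conjugate (GG_le_one φ hφ i s) (v i)
      rw [mul_one] at this
      exact this.trans (hvv i)
    have := star_right_conjugate_le_conjugate h1 (r φ i s)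
    rwa [mul_one] at this
  · rw [VV_mul φ hφ]
    calc n2 T _ ≤ ∑ i : Fin b, ∑ s : Fin (n i),
          n2 T (r φ i s * (v i * (G φ i s * G φ i s) * v i) * star (r φ i s)) := by
          refine (n2_sum_le hTB T hT _ _).trans (Finset.sum_le_sum fun i _ => ?_)
          exact n2_sum_le hTB T hT _ _
      _ ≤ ∑ i : Fin b, ∑ s : Fin (n i), (2 * e) * 1 := by
          refine Finset.sum_le_sum fun i _ => Finset.sum_le_sum fun s _ => ?_
          rw [mul_one]
          exact (n2_rr hTB T hT _ _ (nr i s)).trans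
            (b1 hTB T hT _ _ e (hv i).1 (nv i) (nG i s) (hvT i T hT s).2)
      _ = (2 * e) * N := by rw [hN]; simp only [Finset.mul_sum]
      _ ≤ e * C := by
          rw [hC]
          nlinarith [sq_nonneg N]
      _ ≤ ε := heC
  · obtain ⟨t1, t2, t3, t4, t5, t6, t7, t8, t9, t10, t11, t12, t13, t14, t15, t16⟩ := hTB A T hT
    have h0 := h_nonneg φ hφ
    have a2 : 0 ≤ φ 1 * φ 1 := nonneg_mul_self _ h0
    have a4 : 0 ≤ φ 1 * φ 1 * (φ 1 * φ 1) := nonneg_mul_self _ a2
    have b2' : φ 1 * φ 1 ≤ 1 := hh_le_one φ hφ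
    have b4' : φ 1 * φ 1 * (φ 1 * φ 1) ≤ 1 :=
      sq_le_one _ ((neg_nonpos.mpr zero_le_one).trans a2) b2'
    have q1 : n2 T (1 - φ 1 * φ 1 * (φ 1 * φ 1)) ^ 2 ≤ 4 * re T (1 - φ 1) := by
      refine (b3 hTB T hT _ (sub_nonneg.mpr b4') (sub_le_self _ a4)).trans ?_
      rw [re_sub]
      exact one_sub_h4 hTB T hT (φ 1) h0 hφ.2.2.2
    have q2 : n2 T (φ 1 * φ 1 * (φ 1 * φ 1) - (star (VV φ v) * VV φ v + VV φ v * star (VV φ v)))
        ≤ N * (4 * e + Real.sqrt e) := by
      have e1 : φ 1 * φ 1 * (φ 1 * φ 1) - (star (VV φ v) * VV φ v + VV φ v * star (VV φ v)) =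
          ∑ i : Fin b, ∑ s : Fin (n i), r φ i s * (G φ i s * G φ i s -
            (star (v i) * (G φ i s * G φ i s) * v i + v i * (G φ i s * G φ i s) * star (v i))) *
              star (r φ i s) := by
        rw [VV_star, VV_mul φ hφ, VV_mul φ hφ, ← sum_rGGr φ hφ]
        simp only [← Finset.sum_add_distrib, ← Finset.sum_sub_distrib]
        refine Finset.sum_congr rfl fun i _ => Finset.sum_congr rfl fun s _ => ?_
        simp only [mul_sub, sub_mul, mul_add, add_mul]
      rw [e1]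
      calc n2 T _ ≤ ∑ i : Fin b, ∑ s : Fin (n i),
            n2 T (r φ i s * (G φ i s * G φ i s -
            (star (v i) * (G φ i s * G φ i s) * v i + v i * (G φ i s * G φ i s) * star (v i))) *
              star (r φ i s)) := by
            refine (n2_sum_le hTB T hT _ _).trans (Finset.sum_le_sum fun i _ => ?_)
            exact n2_sum_le hTB T hT _ _
        _ ≤ ∑ i : Fin b, ∑ s : Fin (n i), 1 * (4 * e + Real.sqrt e) := by
            refine Finset.sum_le_sum fun i _ => Finset.sum_le_sum fun s _ => ?_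
            rw [one_mul]
            exact (n2_rr hTB T hT _ _ (nr i s)).trans
              (b4 hTB T hT _ _ e (hv i).2 (nv i) (IsSelfAdjoint.of_nonneg (G_nonneg φ hφ i s))
                (nG i s) (hvT i T hT s).2 (hvT i T hT s).1)
        _ = N * (4 * e + Real.sqrt e) := by rw [hN]; simp only [Finset.sum_mul]
    have hse : 4 * e + Real.sqrt e ≤ 5 * Real.sqrt e := by
      have h1 : e ≤ Real.sqrt e := by
        apply Real.le_sqrt_of_sq_le
        nlinarith
      linarith
    have hs2 : Real.sqrt e ^ 2 = e := Real.sq_sqrt he0.le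
    have q3 : n2 T (φ 1 * φ 1 * (φ 1 * φ 1) -
        (star (VV φ v) * VV φ v + VV φ v * star (VV φ v))) ^ 2 ≤ 25 * N ^ 2 * e := by
      have h1 : n2 T (φ 1 * φ 1 * (φ 1 * φ 1) -
          (star (VV φ v) * VV φ v + VV φ v * star (VV φ v))) ≤ N * (5 * Real.sqrt e) :=
        q2.trans (mul_le_mul_of_nonneg_left hse hN0)
      calc _ ≤ (N * (5 * Real.sqrt e)) ^ 2 := pow_le_pow_left₀ (t1 _) h1 2
        _ = 25 * N ^ 2 * (Real.sqrt e ^ 2) := by ring
        _ = _ := by rw [hs2]
    have q4 : n2 T (1 - (star (VV φ v) * VV φ v + VV φ v * star (VV φ v))) ≤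
        n2 T (1 - φ 1 * φ 1 * (φ 1 * φ 1)) + n2 T (φ 1 * φ 1 * (φ 1 * φ 1) -
          (star (VV φ v) * VV φ v + VV φ v * star (VV φ v))) := by
      have := t3 (1 - φ 1 * φ 1 * (φ 1 * φ 1)) (φ 1 * φ 1 * (φ 1 * φ 1) -
          (star (VV φ v) * VV φ v + VV φ v * star (VV φ v)))
      rwa [sub_add_sub_cancel] at this
    have q5 := pow_le_pow_left₀ (t1 _) q4 2
    have q6 : 50 * N ^ 2 * e ≤ ε := by
      refine le_trans ?_ heC
      rw [hC]
      nlinarith
    nlinarith [sq_nonneg (n2 T (1 - φ 1 * φ 1 * (φ 1 * φ 1)) - n2 T (φ 1 * φ 1 * (φ 1 * φ 1) -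
          (star (VV φ v) * VV φ v + VV φ v * star (VV φ v))))]
  · have e1 : VV φ v * φ (x j) - φ (x j) * VV φ v = ∑ i : Fin b, ∑ s : Fin (n i), ∑ t : Fin (n i),
        x j i s t • (r φ i s * (v i * G φ i s - G φ i s * v i) * star (r φ i t)) := by
      conv_lhs => rw [x_sum (x j)]
      simp only [map_sum, map_smul, Finset.mul_sum, Finset.sum_mul, ← Finset.sum_sub_distrib]
      refine Finset.sum_congr rfl fun i _ => Finset.sum_congr rfl fun s _ =>
        Finset.sum_congr rfl fun t _ => ?_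
      rw [← VV_comm φ hφ, mul_smul_comm, smul_mul_assoc, smul_sub]
    rw [e1]
    obtain ⟨t1, t2, t3, t4, t5, t6, t7, t8, t9, t10, t11, t12, t13, t14, t15, t16⟩ := hTB A T hT
    calc n2 T _ ≤ ∑ i : Fin b, ∑ s : Fin (n i), ∑ t : Fin (n i),
          n2 T (x j i s t • (r φ i s * (v i * G φ i s - G φ i s * v i) * star (r φ i t))) := by
          refine (n2_sum_le hTB T hT _ _).trans (Finset.sum_le_sum fun i _ => ?_)
          refine (n2_sum_le hTB T hT _ _).trans (Finset.sum_le_sum fun s _ => ?_)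
          exact n2_sum_le hTB T hT _ _
      _ ≤ ∑ i : Fin b, ∑ s : Fin (n i), ∑ t : Fin (n i), e * ‖x j i s t‖ := by
          refine Finset.sum_le_sum fun i _ => Finset.sum_le_sum fun s _ =>
            Finset.sum_le_sum fun t _ => ?_
          rw [t5]
          have q := (hvT i T hT s).2
          have nrt : ‖star (r φ i t)‖ ≤ 1 := by rw [norm_star]; exact nr i t
          calc ‖x j i s t‖ * n2 T (r φ i s * (v i * G φ i s - G φ i s * v i) * star (r φ i t))
              ≤ ‖x j i s t‖ * e := by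
                apply mul_le_mul_of_nonneg_left _ (norm_nonneg _)
                calc _ ≤ n2 T (r φ i s * (v i * G φ i s - G φ i s * v i)) * ‖star (r φ i t)‖ :=
                      t8 _ _
                  _ ≤ n2 T (r φ i s * (v i * G φ i s - G φ i s * v i)) * 1 :=
                      mul_le_mul_of_nonneg_left nrt (t1 _)
                  _ = n2 T (r φ i s * (v i * G φ i s - G φ i s * v i)) := mul_one _
                  _ ≤ ‖r φ i s‖ * n2 T (v i * G φ i s - G φ i s * v i) := t7 _ _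
                  _ ≤ 1 * n2 T (v i * G φ i s - G φ i s * v i) :=
                      mul_le_mul_of_nonneg_right (nr i s) (t1 _)
                  _ = n2 T (v i * G φ i s - G φ i s * v i) := one_mul _
                  _ ≤ e := q
            _ = e * ‖x j i s t‖ := mul_comm _ _
      _ = e * M j := by rw [hM]; simp only [Finset.mul_sum]
      _ ≤ e * C := by
          have : M j ≤ ∑ j, M j := Finset.single_le_sum (fun j _ => hM0 j) (Finset.mem_univ j)
          rw [hC]
          apply mul_le_mul_of_nonneg_left _ he0.le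
          nlinarith [sq_nonneg N]
      _ ≤ ε := heC

end Pool.Agent.H270R2.UM
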