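import Pool.Agent.H270R2.UM.Stubs

/-! # Task GLUEA (project UM): gluing, commutators -/

set_option autoImplicit false

namespace Pool.Agent.H270R2.UM

open Filter Topology Pool.Agent.H327R4.Pure Pool.Agent.H735TW

universe u

namespace GLUEAaux

variable {A : Type u} [CStarAlgebra A] [PartialOrder A] [StarOrderedRing A]

lemma norm_le_one {x : A} (h : star x * x ≤ 1) : ‖x‖ ≤ 1 := by
  have h1 := (CStarAlgebra.norm_le_one_iff_of_nonneg _ (star_mul_self_nonneg x)).2 h
  rw [CStarRing.norm_star_mul_self] at h1
  nlinarith [norm_nonneg x]

lemma n2_sum (hTB : StTB.{u}) (T : Tr A) (hT : St T) {N : ℕ} (f : Fin N → A) :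
    n2 T (∑ w, f w) ≤ ∑ w, n2 T (f w) := by
  obtain ⟨h0, hsq, hadd, -, -, -, -, -, hle, -⟩ := hTB A T hT
  have h00 : n2 T 0 ≤ 0 := by
    have := hle 0
    rwa [norm_zero] at this
  exact Finset.le_sum_of_subadditive (n2 T) h00 hadd _ _

omit [PartialOrder A] [StarOrderedRing A] in
lemma tr_conj (T : Tr A) (c s : A) :
    T.f (star (c * s) * (c * s)) = T.f (s * star s * (star c * c)) :=
  calc T.f (star (c * s) * (c * s)) = T.f (star s * (star c * c * s)) := by
        rw [star_mul]
        congr 1
        simp only [mul_assoc]
    _ = T.f (star c * c * s * star s) := T.tr _ _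
    _ = T.f ((star c * c) * (s * star s)) := by rw [mul_assoc]
    _ = T.f ((s * star s) * (star c * c)) := T.tr _ _

end GLUEAaux

open GLUEAaux in
theorem t_GLUEA (hTB : StTB.{u}) (hNRM : StNRM.{u}) : StGLUEA.{u} := by
  intro A _ _ _ N r z hr hz
  have hr1 : ∀ w, star (r w) * r w ≤ 1 := by
    intro w
    rw [← hr]
    exact Finset.single_le_sum (f := fun w => star (r w) * r w)
      (fun w _ => star_mul_self_nonneg _) (Finset.mem_univ w)
  have hrn : ∀ w, ‖r w‖ ≤ 1 := fun w => norm_le_one (hr1 w)
  have hzn : ∀ w, ‖z w‖ ≤ 1 := fun w => norm_le_one (hz w)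
  constructor
  · have h1 := hNRM A N r (fun w => z w * r w) hr.le
    simp only [← mul_assoc] at h1
    refine h1.trans ?_
    rw [← hr]
    refine Finset.sum_le_sum fun w _ => ?_
    have h2 := star_left_conjugate_le_conjugate (hz w) (r w)
    rw [mul_one] at h2
    simpa only [star_mul, mul_assoc] using h2
  · intro T hT a ε hε ha hsa
    obtain ⟨h0, hsq, hadd, hsub, hsmul, hstar, hmull, hmulr, hle, -, -, hmono, -⟩ := hTB A T hT
    have e1 : (∑ w, star (r w) * z w * r w) * a - a * (∑ w, star (r w) * z w * r w) =
        ∑ w, star (r w) * z w * (r w * a - a * r w) +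
        ∑ w, star (r w) * ((z w * a - a * z w) * r w) +
        ∑ w, (star (r w) * a - a * star (r w)) * (z w * r w) := by
      rw [Finset.sum_mul, Finset.mul_sum, ← Finset.sum_sub_distrib, ← Finset.sum_add_distrib,
        ← Finset.sum_add_distrib]
      refine Finset.sum_congr rfl fun w _ => ?_
      noncomm_ring
    have b1 : n2 T (∑ w, star (r w) * z w * (r w * a - a * r w)) ≤ N * ε := by
      refine (n2_sum hTB T hT _).trans ?_
      calc ∑ w, n2 T (star (r w) * z w * (r w * a - a * r w)) ≤ ∑ _w : Fin N, ε := by
            refine Finset.sum_le_sum fun w _ => ?_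
            refine (hmull _ _).trans ?_
            have : ‖star (r w) * z w‖ ≤ 1 := by
              refine (norm_mul_le _ _).trans ?_
              rw [norm_star]
              exact mul_le_one₀ (hrn w) (norm_nonneg _) (hzn w)
            calc ‖star (r w) * z w‖ * n2 T (r w * a - a * r w) ≤ 1 * ε :=
                  mul_le_mul this (ha w) (h0 _) zero_le_one
              _ = ε := one_mul _
        _ = N * ε := by simp
    have b3 : n2 T (∑ w, (star (r w) * a - a * star (r w)) * (z w * r w)) ≤ N * ε := by
      refine (n2_sum hTB T hT _).trans ?_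
      calc ∑ w, n2 T ((star (r w) * a - a * star (r w)) * (z w * r w)) ≤ ∑ _w : Fin N, ε := by
            refine Finset.sum_le_sum fun w _ => ?_
            refine (hmulr _ _).trans ?_
            have h1 : ‖z w * r w‖ ≤ 1 := by
              refine (norm_mul_le _ _).trans ?_
              exact mul_le_one₀ (hzn w) (norm_nonneg _) (hrn w)
            have h2 : n2 T (star (r w) * a - a * star (r w)) ≤ ε := by
              have h3 : star (r w) * a - a * star (r w) =
                  star (-(r w * star a - star a * r w)) := by
                simp only [star_neg, star_sub, star_mul, star_star]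
                abel
              rw [h3, hstar]
              have h4 := hsmul (-1) (r w * star a - star a * r w)
              rw [neg_one_smul, norm_neg, norm_one, one_mul] at h4
              rw [h4]
              exact hsa w
            calc n2 T (star (r w) * a - a * star (r w)) * ‖z w * r w‖ ≤ ε * 1 :=
                  mul_le_mul h2 h1 (norm_nonneg _) hε
              _ = ε := mul_one _
        _ = N * ε := by simp
    have b2 : n2 T (∑ w, star (r w) * ((z w * a - a * z w) * r w)) ≤
        Real.sqrt (∑ w, re T (r w * star (r w) *
          (star (z w * a - a * z w) * (z w * a - a * z w)))) := by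
      have h1 := hNRM A N r (fun w => (z w * a - a * z w) * r w) hr.le
      have h2 := hmono _ _ h1
      unfold n2
      apply Real.sqrt_le_sqrt
      refine le_trans h2 (le_of_eq ?_)
      unfold re
      rw [map_sum, Complex.re_sum]
      refine Finset.sum_congr rfl fun w _ => ?_
      rw [tr_conj]
    rw [e1]
    have h5 := hadd (∑ w, star (r w) * z w * (r w * a - a * r w) +
        ∑ w, star (r w) * ((z w * a - a * z w) * r w))
        (∑ w, (star (r w) * a - a * star (r w)) * (z w * r w))
    have h6 := hadd (∑ w, star (r w) * z w * (r w * a - a * r w))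
        (∑ w, star (r w) * ((z w * a - a * z w) * r w))
    linarith

end Pool.Agent.H270R2.UM
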