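import Pool.Agent.H270R2.UM.Stubs

/-! (HALV) `2^R` almost central almost projections of equal trace (helper303) -/

set_option autoImplicit false

namespace Pool.Agent.H270R2.UM

open Filter Topology Pool.Agent.H327R4.Pure Pool.Agent.H735TW

universe u

section halv

variable {A : Type u} [CStarAlgebra A] [PartialOrder A] [StarOrderedRing A]

theorem halv_re_sub (T : Tr A) (x y : A) : re T (x - y) = re T x - re T y := by
  unfold re; rw [map_sub, Complex.sub_re]

theorem halv_re_add (T : Tr A) (x y : A) : re T (x + y) = re T x + re T y := by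
  unfold re; rw [map_add, Complex.add_re]

theorem halv_re_tr (T : Tr A) (x y : A) : re T (x * y) = re T (y * x) := by
  unfold re; rw [T.tr]

theorem halv_n2 (T : Tr A) (x : A) (κ : ℝ) (h0 : 0 ≤ κ) (h : re T (star x * x) ≤ κ ^ 2) :
    n2 T x ≤ κ := Real.sqrt_le_iff.mpr ⟨h0, h⟩

theorem halv_pos (x : A) (h0 : 0 ≤ x) (h1 : x ≤ 1) : 0 ≤ x - x * x := by
  have ht : CFC.sqrt x * CFC.sqrt x = x := CFC.sqrt_mul_sqrt_self x h0
  have hs : IsSelfAdjoint (CFC.sqrt x) := IsSelfAdjoint.of_nonneg (CFC.sqrt_nonneg x)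
  have h2 : 0 ≤ CFC.sqrt x * (1 - x) * CFC.sqrt x :=
    IsSelfAdjoint.conjugate_nonneg (sub_nonneg.mpr h1) hs
  have h3 : CFC.sqrt x * (1 - x) * CFC.sqrt x = x - x * x := by
    calc CFC.sqrt x * (1 - x) * CFC.sqrt x
        = CFC.sqrt x * CFC.sqrt x - CFC.sqrt x * x * CFC.sqrt x := by noncomm_ring
      _ = x - CFC.sqrt x * (CFC.sqrt x * CFC.sqrt x) * CFC.sqrt x := by rw [ht]
      _ = x - (CFC.sqrt x * CFC.sqrt x) * (CFC.sqrt x * CFC.sqrt x) := by noncomm_ring
      _ = x - x * x := by rw [ht]
  rwa [h3] at h2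

theorem halv_sqrt (e : A) (h0 : 0 ≤ e) (h1 : e ≤ 1) :
    star (CFC.sqrt e) = CFC.sqrt e ∧ CFC.sqrt e * CFC.sqrt e = e ∧ ‖CFC.sqrt e‖ ≤ 1 ∧
      0 ≤ CFC.sqrt e - e := by
  have hs0 : 0 ≤ CFC.sqrt e := CFC.sqrt_nonneg e
  have ht : CFC.sqrt e * CFC.sqrt e = e := CFC.sqrt_mul_sqrt_self e h0
  have hs : star (CFC.sqrt e) = CFC.sqrt e := (IsSelfAdjoint.of_nonneg hs0).star_eq
  have hne : ‖e‖ ≤ 1 := (CStarAlgebra.norm_le_one_iff_of_nonneg e h0).mpr h1
  have hn : ‖CFC.sqrt e‖ ≤ 1 := by
    have h2 : ‖CFC.sqrt e‖ * ‖CFC.sqrt e‖ ≤ 1 := by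
      have h3 := CStarRing.norm_star_mul_self (x := CFC.sqrt e)
      rw [hs, ht] at h3
      rw [← h3]; exact hne
    nlinarith [norm_nonneg (CFC.sqrt e)]
  refine ⟨hs, ht, hn, ?_⟩
  have h4 := halv_pos (CFC.sqrt e) hs0
    ((CStarAlgebra.norm_le_one_iff_of_nonneg _ hs0).mp hn)
  rwa [ht] at h4

/-- the estimates for the square root of an almost projection -/
theorem halv_facts (hTB : StTB.{u}) (T : Tr A) (hT : St T) (e : A) (h0 : 0 ≤ e) (h1 : e ≤ 1)
    (κ : ℝ) (hκ : 0 ≤ κ) (h : re T (e - e * e) ≤ κ ^ 2) :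
    n2 T (CFC.sqrt e - e) ≤ κ ∧ n2 T (CFC.sqrt e * (1 - e)) ≤ κ ∧
      n2 T (CFC.sqrt e * CFC.sqrt (1 - e)) ≤ κ := by
  obtain ⟨-, -, -, -, -, -, -, -, -, -, -, -, -, tpos, -, tle⟩ := hTB A T hT
  obtain ⟨s1, s2, s3, s4⟩ := halv_sqrt e h0 h1
  have h0' : 0 ≤ 1 - e := sub_nonneg.mpr h1
  have h1' : 1 - e ≤ 1 := sub_le_self 1 h0
  obtain ⟨r1, r2, r3, r4⟩ := halv_sqrt (1 - e) h0' h1'
  have he : star e = e := (IsSelfAdjoint.of_nonneg h0).star_eq
  set s := CFC.sqrt e
  set r := CFC.sqrt (1 - e)
  refine ⟨halv_n2 T _ κ hκ ?_, halv_n2 T _ κ hκ ?_, halv_n2 T _ κ hκ ?_⟩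
  · have e1 : star (s - e) * (s - e) = s * s - s * e - e * s + e * e := by
      rw [star_sub, s1, he]; noncomm_ring
    have e2 := tpos (s - e) e s4 h0
    rw [sub_mul, halv_re_sub] at e2
    rw [e1, s2, halv_re_add, halv_re_sub, halv_re_sub, halv_re_tr T e s]
    rw [halv_re_sub] at h
    linarith
  · have e1 : star (s * (1 - e)) * (s * (1 - e)) = (1 - e) * (e * (1 - e)) := by
      rw [star_mul, star_sub, star_one, s1, he]
      calc (1 - e) * s * (s * (1 - e)) = (1 - e) * ((s * s) * (1 - e)) := by noncomm_ring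
        _ = _ := by rw [s2]
    have e2 : e * (1 - e) = e - e * e := by noncomm_ring
    rw [e1]
    refine (tle (1 - e) (e * (1 - e)) h0' h1' ?_).trans ?_
    · rw [e2]; exact halv_pos e h0 h1
    · rw [e2]; exact h
  · have e1 : star (s * r) * (s * r) = r * (e * r) := by
      rw [star_mul, s1, r1]
      calc r * s * (s * r) = r * ((s * s) * r) := by noncomm_ring
        _ = _ := by rw [s2]
    rw [e1, halv_re_tr, mul_assoc, r2]
    have e2 : e * (1 - e) = e - e * e := by noncomm_ring
    rw [e2]; exact h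

/-- the induction statement -/
def HP (A : Type u) [CStarAlgebra A] [PartialOrder A] [StarOrderedRing A] (R : ℕ) : Prop :=
  ∀ (m : ℕ) (a : Fin m → A) (ε : ℝ), 0 < ε →
  ∃ (ι : Type) (_ : Fintype ι) (r : ι → A), Fintype.card ι = 2 ^ R ∧
    (∀ w, ‖r w‖ ≤ 1) ∧ ∑ w, star (r w) * r w = 1 ∧ ∀ T : Tr A, St T →
    (∀ w w', w ≠ w' → n2 T (r w * star (r w')) ≤ ε) ∧
    ∀ w, n2 T (r w * star (r w) * r w - r w) ≤ ε ∧
      ∀ j, n2 T (r w * a j - a j * r w) ≤ ε ∧
        ‖T.f (r w * star (r w) * a j) - (1 / 2 : ℂ) ^ R * T.f (a j)‖ ≤ ε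

theorem halv_zero (hTB : StTB.{u}) : HP A 0 := by
  intro m a ε hε
  refine ⟨Unit, inferInstance, fun _ => 1, by simp, fun _ => ?_, by simp, fun T hT => ?_⟩
  · exact (CStarAlgebra.norm_le_one_iff_of_nonneg (1 : A) zero_le_one).mpr le_rfl
  · obtain ⟨-, -, -, -, -, -, -, -, t9, -⟩ := hTB A T hT
    have hz : n2 T (0 : A) ≤ ε := (t9 0).trans (by rw [norm_zero]; exact hε.le)
    refine ⟨fun w w' h => absurd (Subsingleton.elim w w') h, fun w => ⟨?_, fun j => ⟨?_, ?_⟩⟩⟩
    · simpa using hz
    · simpa using hz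
    · simpa using hε.le

theorem halv_step (hTB : StTB.{u}) (hG : UGamma A) (R : ℕ) (ih : HP A R) : HP A (R + 1) := by
  classical
  intro m a ε hε
  set M : ℝ := 1 + ∑ j, ‖a j‖ with hM
  have hM1 : 1 ≤ M := by
    have : 0 ≤ ∑ j, ‖a j‖ := Finset.sum_nonneg fun j _ => norm_nonneg _
    linarith
  have hMa : ∀ j, ‖a j‖ ≤ M := by
    intro j
    have := Finset.single_le_sum (f := fun j => ‖a j‖) (fun j _ => norm_nonneg _)
      (Finset.mem_univ j)
    linarith
  obtain ⟨ι, hι, r, hcard, hrn, hrs, hr⟩ := ih m a (ε / 4) (by positivity)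
  set κ : ℝ := min 1 (ε / (16 * M)) with hκ
  have hκ0 : 0 < κ := lt_min one_pos (by positivity)
  have hκ1 : κ ≤ 1 := min_le_left _ _
  have hκM : M * κ ≤ ε / 16 := by
    have h1 : κ ≤ ε / (16 * M) := min_le_right _ _
    calc M * κ ≤ M * (ε / (16 * M)) := mul_le_mul_of_nonneg_left h1 (by linarith)
      _ = ε / 16 := by field_simp
  have hκε : κ ≤ ε / 16 := le_trans (by nlinarith) hκM
  have hκ2 : κ ^ 2 ≤ κ := by nlinarith
  -- the family for uniform property Gamma
  set f : Fin m ⊕ ι ⊕ (ι × Fin m) → A := Sum.elim a (Sum.elim (fun w => r w * star (r w))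
    (fun p => r p.1 * star (r p.1) * a p.2)) with hf
  set E := Fintype.equivFin (Fin m ⊕ ι ⊕ (ι × Fin m)) with hE
  obtain ⟨e, he0, he1, he⟩ := hG _ (fun k => f (E.symm k)) (κ ^ 2) (by positivity)
  have hef : ∀ T : Tr A, St T → ∀ x, n2 T (e * f x - f x * e) ≤ κ ∧
      ‖T.f (e * f x) - (1 / 2 : ℂ) * T.f (f x)‖ ≤ κ := by
    intro T hT x
    obtain ⟨h1, h2⟩ := (he T hT).2 (E x)
    rw [Equiv.symm_apply_apply] at h1 h2
    exact ⟨h1.trans hκ2, h2.trans hκ2⟩
  -- the two square roots
  set d : Bool → A := fun i => if i then e else 1 - e with hd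
  have hd0 : ∀ i, 0 ≤ d i := by
    intro i; cases i
    · simpa [hd] using he1
    · simpa [hd] using he0
  have hd1 : ∀ i, d i ≤ 1 := by
    intro i; cases i
    · simpa [hd] using he0
    · simpa [hd] using he1
  set s : Bool → A := fun i => CFC.sqrt (d i) with hs
  have hss : ∀ i, star (s i) = s i := fun i => (halv_sqrt (d i) (hd0 i) (hd1 i)).1
  have hsq : ∀ i, s i * s i = d i := fun i => (halv_sqrt (d i) (hd0 i) (hd1 i)).2.1
  have hsn : ∀ i, ‖s i‖ ≤ 1 := fun i => (halv_sqrt (d i) (hd0 i) (hd1 i)).2.2.1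
  have hdsum : d true + d false = 1 := by simp [hd]
  refine ⟨ι × Bool, inferInstance, fun p => s p.2 * r p.1, ?_, ?_, ?_, ?_⟩
  · rw [Fintype.card_prod, hcard, Fintype.card_bool, pow_succ]
  · rintro ⟨w, i⟩
    exact (norm_mul_le _ _).trans (mul_le_one₀ (hsn i) (norm_nonneg _) (hrn w))
  · rw [Fintype.sum_prod_type]
    have h1 : ∀ w : ι, ∑ i : Bool, star (s i * r w) * (s i * r w) = star (r w) * r w := by
      intro w
      have h2 : ∀ i, star (s i * r w) * (s i * r w) = star (r w) * (d i * r w) := by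
        intro i
        rw [star_mul, hss, ← hsq i]
        noncomm_ring
      rw [Fintype.sum_bool, h2, h2, ← mul_add, ← add_mul, hdsum, one_mul]
    simp only [h1]
    exact hrs
  · intro T hT
    obtain ⟨t0, t1, tadd, tsub, tsmul, tstar, tml, tmr, t9, tT, -, -, -, -, -, -⟩ := hTB A T hT
    obtain ⟨hr1, hr2⟩ := hr T hT
    have hde : re T (e - e * e) ≤ κ ^ 2 := (he T hT).1
    have hdd : ∀ i, re T (d i - d i * d i) ≤ κ ^ 2 := by
      intro i; cases i
      · have : d false - d false * d false = e - e * e := by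
          simp only [hd]
          simp only [Bool.false_eq_true, if_false]
          noncomm_ring
        rw [this]; exact hde
      · simpa [hd] using hde
    have hfac := fun i => halv_facts hTB T hT (d i) (hd0 i) (hd1 i) κ hκ0.le (hdd i)
    -- commutators with d i, traces
    have hcd : ∀ i x, n2 T (d i * f x - f x * d i) ≤ κ := by
      intro i x; cases i
      · have : d false * f x - f x * d false = -(e * f x - f x * e) := by
          simp only [hd, Bool.false_eq_true, if_false]
          noncomm_ring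
        rw [this]
        have h2 := tsmul (-1) (e * f x - f x * e)
        rw [neg_one_smul, norm_neg, norm_one, one_mul] at h2
        rw [h2]; exact (hef T hT x).1
      · simpa [hd] using (hef T hT x).1
    have htd : ∀ i x, ‖T.f (d i * f x) - (1 / 2 : ℂ) * T.f (f x)‖ ≤ κ := by
      intro i x; cases i
      · have : T.f (d false * f x) - (1 / 2 : ℂ) * T.f (f x) =
            -(T.f (e * f x) - (1 / 2 : ℂ) * T.f (f x)) := by
          simp only [hd, Bool.false_eq_true, if_false]
          rw [sub_mul, one_mul, map_sub]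
          ring
        rw [this, norm_neg]; exact (hef T hT x).2
      · simpa [hd] using (hef T hT x).2
    -- commutators with s i
    have hcs : ∀ i x, n2 T (s i * f x - f x * s i) ≤ (2 * ‖f x‖ + 1) * κ := by
      intro i x
      have h1 : s i * f x - f x * s i =
          ((s i - d i) * f x - f x * (s i - d i)) + (d i * f x - f x * d i) := by noncomm_ring
      rw [h1]
      refine (tadd _ _).trans ?_
      have h2 := (tsub ((s i - d i) * f x) (f x * (s i - d i)))
      have h3 := tmr (s i - d i) (f x)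
      have h4 := tml (f x) (s i - d i)
      have h5 := (hfac i).1
      have h6 := hcd i x
      have h7 : n2 T (s i - d i) * ‖f x‖ ≤ κ * ‖f x‖ :=
        mul_le_mul_of_nonneg_right h5 (norm_nonneg _)
      have h8 : ‖f x‖ * n2 T (s i - d i) ≤ ‖f x‖ * κ :=
        mul_le_mul_of_nonneg_left h5 (norm_nonneg _)
      linarith
    have hqn : ∀ w, ‖r w * star (r w)‖ ≤ 1 := fun w =>
      (norm_mul_le _ _).trans (mul_le_one₀ (hrn w) (norm_nonneg _) (by rw [norm_star]; exact hrn w))
    -- multiplication by contractions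
    have hL : ∀ x y : A, ‖x‖ ≤ 1 → n2 T (x * y) ≤ n2 T y := fun x y hx =>
      (tml x y).trans (by nlinarith [t0 y, norm_nonneg x])
    have hRr : ∀ x y : A, ‖y‖ ≤ 1 → n2 T (x * y) ≤ n2 T x := fun x y hy =>
      (tmr x y).trans (by nlinarith [t0 x, norm_nonneg y])
    have hcq : ∀ i w, n2 T (s i * (r w * star (r w)) - (r w * star (r w)) * s i) ≤ 3 * κ := by
      intro i w
      have h1 := hcs i (Sum.inr (Sum.inl w))
      have h2 : f (Sum.inr (Sum.inl w)) = r w * star (r w) := rfl
      rw [h2] at h1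
      refine h1.trans ?_
      nlinarith [hqn w]
    have hca : ∀ i j, n2 T (s i * a j - a j * s i) ≤ 3 * (M * κ) := by
      intro i j
      have h1 := hcs i (Sum.inl j)
      have h2 : f (Sum.inl j) = a j := rfl
      rw [h2] at h1
      refine h1.trans ?_
      have h3 : (2 * ‖a j‖ + 1) * κ ≤ (3 * M) * κ :=
        mul_le_mul_of_nonneg_right (by linarith [hMa j]) hκ0.le
      linarith
    refine ⟨?_, ?_⟩
    · rintro ⟨w, i⟩ ⟨w', i'⟩ hne
      have e1 : s i * r w * star (s i' * r w') = s i * (r w * star (r w')) * s i' := by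
        rw [star_mul, hss]; noncomm_ring
      change n2 T (s i * r w * star (s i' * r w')) ≤ ε
      rw [e1]
      by_cases hw : w = w'
      · subst hw
        have hi : i ≠ i' := fun h => hne (by rw [h])
        -- s_i q s_i'
        have e2 : s i * (r w * star (r w)) * s i' =
            s i * s i' * (r w * star (r w)) -
              s i * (s i' * (r w * star (r w)) - (r w * star (r w)) * s i') := by noncomm_ring
        rw [e2]
        refine (tsub _ _).trans ?_
        have h1 : n2 T (s i * s i' * (r w * star (r w))) ≤ κ := by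
          refine (hRr _ _ (hqn w)).trans ?_
          cases i <;> cases i'
          · exact absurd rfl hi
          · have := (hfac false).2.2
            have h3 : CFC.sqrt (1 - d false) = s true := by
              simp [hs, hd]
            rw [h3] at this
            exact this
          · have := (hfac true).2.2
            have h3 : CFC.sqrt (1 - d true) = s false := by
              simp [hs, hd]
            rw [h3] at this
            exact this
          · exact absurd rfl hi
        have h2 := hL (s i) (s i' * (r w * star (r w)) - (r w * star (r w)) * s i') (hsn i)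
        have h3 := hcq i' w
        linarith
      · have h1 := hRr (s i * (r w * star (r w'))) (s i') (hsn i')
        have h2 := hL (s i) (r w * star (r w')) (hsn i)
        have h3 := hr1 w w' hw
        linarith
    · rintro ⟨w, i⟩
      obtain ⟨g1, g2⟩ := hr2 w
      change n2 T (s i * r w * star (s i * r w) * (s i * r w) - s i * r w) ≤ ε ∧
        ∀ j, n2 T (s i * r w * a j - a j * (s i * r w)) ≤ ε ∧
          ‖T.f (s i * r w * star (s i * r w) * a j) - (1 / 2 : ℂ) ^ (R + 1) * T.f (a j)‖ ≤ ε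
      refine ⟨?_, fun j => ⟨?_, ?_⟩⟩
      · set q := r w * star (r w) with hq
        have e1 : s i * r w * star (s i * r w) * (s i * r w) - s i * r w =
            (s i * (-(d i * q - q * d i)) * r w) + (s i * d i) * (q * r w - r w) -
              (s i * (1 - d i)) * r w := by
          rw [star_mul, hss, hq]
          have e2 : s i * r w * (star (r w) * s i) * (s i * r w) =
              s i * (r w * star (r w)) * (s i * s i) * r w := by noncomm_ring
          rw [e2, hsq]
          noncomm_ring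
        rw [e1]
        refine (tsub _ _).trans ?_
        have h1 := tadd (s i * (-(d i * q - q * d i)) * r w) ((s i * d i) * (q * r w - r w))
        have h2 : n2 T (s i * (-(d i * q - q * d i)) * r w) ≤ κ := by
          refine (hRr _ _ (hrn w)).trans ((hL _ _ (hsn i)).trans ?_)
          have h3 := tsmul (-1) (d i * q - q * d i)
          rw [neg_one_smul, norm_neg, norm_one, one_mul] at h3
          rw [h3]
          exact hcd i (Sum.inr (Sum.inl w))
        have h3 : n2 T ((s i * d i) * (q * r w - r w)) ≤ ε / 4 := by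
          have hdn : ‖d i‖ ≤ 1 := (CStarAlgebra.norm_le_one_iff_of_nonneg _ (hd0 i)).mpr (hd1 i)
          refine (hL _ _ ((norm_mul_le _ _).trans
            (mul_le_one₀ (hsn i) (norm_nonneg _) hdn))).trans g1
        have h4 : n2 T ((s i * (1 - d i)) * r w) ≤ κ := (hRr _ _ (hrn w)).trans (hfac i).2.1
        linarith
      · have e1 : s i * r w * a j - a j * (s i * r w) =
            s i * (r w * a j - a j * r w) + (s i * a j - a j * s i) * r w := by noncomm_ring
        rw [e1]
        refine (tadd _ _).trans ?_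
        have h1 := hL (s i) (r w * a j - a j * r w) (hsn i)
        have h2 := hRr (s i * a j - a j * s i) (r w) (hrn w)
        have h3 := (g2 j).1
        have h4 := hca i j
        linarith
      · set q := r w * star (r w) with hq
        have e1 : T.f (s i * r w * star (s i * r w) * a j) =
            T.f (q * ((s i * a j - a j * s i) * s i)) + T.f (d i * (q * a j)) := by
          have e2 : s i * r w * star (s i * r w) * a j = s i * (q * s i * a j) := by
            rw [star_mul, hss, hq]; noncomm_ring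
          rw [e2, T.tr]
          have e3 : q * s i * a j * s i = q * ((s i * a j - a j * s i) * s i) +
              (q * a j) * (s i * s i) := by noncomm_ring
          rw [e3, map_add, hsq, T.tr (q * a j) (d i)]
        have h1 : ‖T.f (q * ((s i * a j - a j * s i) * s i))‖ ≤ 3 * (M * κ) := by
          refine (tT _).trans ((hL _ _ (hqn w)).trans ((hRr _ _ (hsn i)).trans (hca i j)))
        have h2 : ‖T.f (d i * (q * a j)) - (1 / 2 : ℂ) * T.f (q * a j)‖ ≤ κ :=
          htd i (Sum.inr (Sum.inr (w, j)))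
        have h3 : ‖T.f (q * a j) - (1 / 2 : ℂ) ^ R * T.f (a j)‖ ≤ ε / 4 := (g2 j).2
        have e4 : T.f (q * ((s i * a j - a j * s i) * s i)) + T.f (d i * (q * a j)) -
            (1 / 2 : ℂ) ^ (R + 1) * T.f (a j) =
            T.f (q * ((s i * a j - a j * s i) * s i)) +
            (T.f (d i * (q * a j)) - (1 / 2 : ℂ) * T.f (q * a j)) +
            (1 / 2 : ℂ) * (T.f (q * a j) - (1 / 2 : ℂ) ^ R * T.f (a j)) := by
          rw [pow_succ]; ring
        rw [e1, e4]
        refine (norm_add_le _ _).trans ?_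
        have h5 := norm_add_le (T.f (q * ((s i * a j - a j * s i) * s i)))
          (T.f (d i * (q * a j)) - (1 / 2 : ℂ) * T.f (q * a j))
        have h6 : ‖(1 / 2 : ℂ) * (T.f (q * a j) - (1 / 2 : ℂ) ^ R * T.f (a j))‖ ≤ ε / 4 := by
          rw [norm_mul]
          have : ‖(1 / 2 : ℂ)‖ ≤ 1 := by norm_num
          nlinarith [norm_nonneg (T.f (q * a j) - (1 / 2 : ℂ) ^ R * T.f (a j))]
        linarith

end halv

theorem t_HALV (hTB : StTB.{u}) : StHALV.{u} := by
  intro A _ _ _ hG R m a ε hε
  have hP : ∀ R, HP A R := by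
    intro R
    induction R with
    | zero => exact halv_zero hTB
    | succ R ih => exact halv_step hTB hG R ih
  obtain ⟨ι, hι, r, hcard, -, hs, hr⟩ := hP R m a ε hε
  have E : Fin (2 ^ R) ≃ ι := (Fintype.equivFinOfCardEq hcard).symm
  refine ⟨fun w => r (E w), ?_, fun T hT => ?_⟩
  · rw [← hs]
    exact E.sum_comp (fun w => star (r w) * r w)
  · obtain ⟨h1, h2⟩ := hr T hT
    exact ⟨fun w w' hne => h1 _ _ (fun h => hne (E.injective h)), fun w => h2 _⟩

end Pool.Agent.H270R2.UM
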