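import Pool.Agent.H270R2.UM.Stubs

set_option autoImplicit false

namespace Pool.Agent.H270R2.UM

open Filter Topology Pool.Agent.H327R4.Pure Pool.Agent.H735TW

universe u

theorem t_NRM : StNRM.{u} := by
  intro A _ _ _ N r y hr
  obtain ⟨W, hW⟩ : ∃ W : A, W = ∑ w, star (r w) * y w := ⟨_, rfl⟩
  rw [← hW]
  have h0 : 0 ≤ ∑ w, star (y w - r w * W) * (y w - r w * W) :=
    Finset.sum_nonneg (fun w _ => star_mul_self_nonneg _)
  have hsW : star W = ∑ w, star (y w) * r w := by
    rw [hW, star_sum]
    refine Finset.sum_congr rfl (fun w _ => ?_)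
    rw [star_mul, star_star]
  have e1 : ∑ w, star (y w) * (r w * W) = star W * W := by
    rw [hsW, Finset.sum_mul]
    refine Finset.sum_congr rfl (fun w _ => by rw [mul_assoc])
  have e2 : ∑ w, star W * (star (r w) * y w) = star W * W := by
    rw [← Finset.mul_sum, ← hW]
  have e3 : ∑ w, star W * (star (r w) * r w) * W =
      star W * (∑ w, star (r w) * r w) * W := by
    rw [Finset.mul_sum, Finset.sum_mul]
  have h1 : ∑ w, star (y w - r w * W) * (y w - r w * W) =
      ∑ w, star (y w) * y w - star W * W - star W * W +
        star W * (∑ w, star (r w) * r w) * W := by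
    have : ∑ w, star (y w - r w * W) * (y w - r w * W) =
        ∑ w, star (y w) * y w - ∑ w, star (y w) * (r w * W) -
          ∑ w, star W * (star (r w) * y w) + ∑ w, star W * (star (r w) * r w) * W := by
      rw [← Finset.sum_sub_distrib, ← Finset.sum_sub_distrib, ← Finset.sum_add_distrib]
      refine Finset.sum_congr rfl (fun w _ => ?_)
      rw [star_sub, star_mul]
      noncomm_ring
    rw [this, e1, e2, e3]
  have h2 : star W * (∑ w, star (r w) * r w) * W ≤ star W * W := by
    have := star_left_conjugate_le_conjugate hr W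
    simpa using this
  rw [h1] at h0
  have h3 : 0 ≤ ∑ w, star (y w) * y w - star W * W - star W * W + star W * W :=
    h0.trans (by gcongr)
  rw [sub_add_cancel] at h3
  exact sub_nonneg.mp h3

end Pool.Agent.H270R2.UM
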