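import Pool.Agent.H270R2.UM.Stubs

/-! Assembly: `Loc` and `Halv` imply `UM`. -/

set_option autoImplicit false

namespace Pool.Agent.H270R2.UM

open Filter Topology Pool.Agent.H327R4.Pure Pool.Agent.H735TW

universe u

theorem umb_halv (A : Type u) [CStarAlgebra A] [PartialOrder A] [StarOrderedRing A]
    (h : Halv A) (R : ℕ) (ι : Type) [Fintype ι] (a : ι → A) (ε : ℝ) (hε : 0 < ε) :
    ∃ r : Fin (2 ^ R) → A, ∑ w, star (r w) * r w = 1 ∧ ∀ T : Tr A, St T →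
      (∀ w w', w ≠ w' → n2 T (r w * star (r w')) ≤ ε) ∧
      ∀ w, n2 T (r w * star (r w) * r w - r w) ≤ ε ∧
        ∀ j, n2 T (r w * a j - a j * r w) ≤ ε ∧
          ‖T.f (r w * star (r w) * a j) - (1 / 2 : ℂ) ^ R * T.f (a j)‖ ≤ ε := by
  obtain ⟨r, h1, h2⟩ := h R (Fintype.card ι) (fun i => a ((Fintype.equivFin ι).symm i)) ε hε
  refine ⟨r, h1, fun T hT => ⟨(h2 T hT).1, fun w => ⟨((h2 T hT).2 w).1, fun j => ?_⟩⟩⟩
  have := ((h2 T hT).2 w).2 (Fintype.equivFin ι j)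
  simpa using this

theorem umb_fib (K R : ℕ) (l : Fin K → ℝ) (κ : Fin (2 ^ R) → Fin K)
    (h : ∀ k : Fin K, (((Finset.univ.filter (fun w => κ w = k)).card : ℕ) : ℝ) ≤ 2 ^ R * l k + 1)
    (g : Fin K → ℝ) (hg : ∀ k, 0 ≤ g k) :
    ∑ w, (1 / 2 : ℝ) ^ R * g (κ w) ≤ ∑ k, (l k + (1 / 2 : ℝ) ^ R) * g k := by
  rw [← Finset.sum_fiberwise (s := Finset.univ) (g := κ)]
  refine Finset.sum_le_sum fun k _ => ?_
  have h1 : ∑ w ∈ Finset.univ.filter (fun w => κ w = k), (1 / 2 : ℝ) ^ R * g (κ w) =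
      (((Finset.univ.filter (fun w => κ w = k)).card : ℕ) : ℝ) * ((1 / 2 : ℝ) ^ R * g k) := by
    rw [Finset.sum_congr rfl (g := fun _ => (1 / 2 : ℝ) ^ R * g k), Finset.sum_const,
      nsmul_eq_mul]
    intro w hw
    rw [(Finset.mem_filter.1 hw).2]
  rw [h1]
  have h2 : 0 ≤ (1 / 2 : ℝ) ^ R * g k := mul_nonneg (by positivity) (hg k)
  have h3 := mul_le_mul_of_nonneg_right (h k) h2
  have h4 : (2 : ℝ) ^ R * (1 / 2 : ℝ) ^ R = 1 := by
    rw [← mul_pow]; norm_num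
  calc _ ≤ _ := h3
    _ = (2 ^ R * (1 / 2 : ℝ) ^ R) * l k * g k + (1 / 2 : ℝ) ^ R * g k := by ring
    _ = (l k + (1 / 2 : ℝ) ^ R) * g k := by rw [h4]; ring

theorem umb_sum (A : Type u) [CStarAlgebra A] [PartialOrder A] [StarOrderedRing A]
    (T : Tr A) (K R : ℕ) (l : Fin K → ℝ) (κ : Fin (2 ^ R) → Fin K)
    (h : ∀ k : Fin K, (((Finset.univ.filter (fun w => κ w = k)).card : ℕ) : ℝ) ≤ 2 ^ R * l k + 1)
    (r : Fin (2 ^ R) → A) (b : Fin K → A) (g : Fin K → ℝ) (e0 e1 G : ℝ)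
    (hb : ∀ k, re T (b k) = g k ^ 2) (hg0 : ∀ k, 0 ≤ g k)
    (hr : ∀ w k, ‖T.f (r w * star (r w) * b k) - (1 / 2 : ℂ) ^ R * T.f (b k)‖ ≤ e1)
    (hs : ∑ k, l k * g k ^ 2 ≤ e0) (hG : ∀ k, g k ≤ G) (hK : K * G ^ 2 * (1 / 2 : ℝ) ^ R ≤ e0)
    (he : 2 ^ R * e1 ≤ e0) :
    ∑ w, re T (r w * star (r w) * b (κ w)) ≤ 3 * e0 := by
  have h1 : ∀ w, re T (r w * star (r w) * b (κ w)) ≤ (1 / 2 : ℝ) ^ R * g (κ w) ^ 2 + e1 := by
    intro w
    have h2 := (Complex.abs_re_le_norm _).trans (hr w (κ w))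
    have h3 : ((1 / 2 : ℂ) ^ R * T.f (b (κ w))).re = (1 / 2 : ℝ) ^ R * g (κ w) ^ 2 := by
      have h4 : (1 / 2 : ℂ) ^ R = (((1 / 2 : ℝ) ^ R : ℝ) : ℂ) := by push_cast; rfl
      rw [h4, Complex.re_ofReal_mul]
      have := hb (κ w)
      unfold re at this
      rw [this]
    rw [Complex.sub_re, h3] at h2
    have h5 := (abs_le.1 h2).2
    unfold re
    linarith
  have h2 := Finset.sum_le_sum fun w (_ : w ∈ (Finset.univ : Finset (Fin (2 ^ R)))) => h1 w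
  rw [Finset.sum_add_distrib, Finset.sum_const, Finset.card_univ, Fintype.card_fin,
    nsmul_eq_mul] at h2
  have h3 := umb_fib K R l κ h (fun k => g k ^ 2) fun k => sq_nonneg _
  have h4 : ∑ k, (l k + (1 / 2 : ℝ) ^ R) * g k ^ 2 =
      ∑ k, l k * g k ^ 2 + (1 / 2 : ℝ) ^ R * ∑ k, g k ^ 2 := by
    rw [Finset.mul_sum, ← Finset.sum_add_distrib]
    exact Finset.sum_congr rfl fun k _ => by ring
  have h5 : ∑ k, g k ^ 2 ≤ K * G ^ 2 := by
    have := Finset.sum_le_card_nsmul (Finset.univ : Finset (Fin K)) (fun k => g k ^ 2) (G ^ 2)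
      fun k _ => pow_le_pow_left₀ (hg0 k) (hG k) 2
    rwa [Finset.card_univ, Fintype.card_fin, nsmul_eq_mul] at this
  have h6 : (1 / 2 : ℝ) ^ R * ∑ k, g k ^ 2 ≤ (1 / 2 : ℝ) ^ R * (K * G ^ 2) :=
    mul_le_mul_of_nonneg_left h5 (by positivity)
  push_cast at h2
  nlinarith

theorem umb_norm (A : Type u) [CStarAlgebra A] [PartialOrder A] [StarOrderedRing A]
    (z : A) (hz : star z * z ≤ 1) : ‖z‖ ≤ 1 := by
  have h1 := (CStarAlgebra.norm_le_one_iff_of_nonneg (star z * z) (star_mul_self_nonneg z)).2 hz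
  rw [CStarRing.norm_star_mul_self] at h1
  nlinarith [norm_nonneg z]

theorem umb_sqrt (e x : ℝ) (he : 0 ≤ e) (hx : x ≤ 3 * (e ^ 2 / 16)) : Real.sqrt x ≤ e / 2 := by
  rw [Real.sqrt_le_left (by linarith)]
  nlinarith [sq_nonneg e]

theorem t_UMB (hTB : StTB.{u}) (hGA : StGLUEA.{u}) (hGB : StGLUEB.{u}) (hWT : StWT) :
    StUMB.{u} := by
  intro A _ _ _ hL hH m a ε hε
  obtain ⟨ε₁, hε1, hε2, hε3⟩ : ∃ ε₁ : ℝ, 0 < ε₁ ∧ ε₁ ≤ ε ∧ ε₁ ≤ 1 :=
    ⟨min ε 1, lt_min hε one_pos, min_le_left _ _, min_le_right _ _⟩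
  obtain ⟨M, hM0, hM⟩ : ∃ M : ℝ, 0 ≤ M ∧ ∀ j, ‖a j‖ ≤ M :=
    ⟨∑ j, ‖a j‖, Finset.sum_nonneg fun j _ => norm_nonneg _,
      fun j => Finset.single_le_sum (fun i _ => norm_nonneg (a i)) (Finset.mem_univ j)⟩
  have he0 : 0 < ε₁ ^ 2 / 16 := by positivity
  obtain ⟨K, l, hl0, hl1, H⟩ := hL m a (ε₁ ^ 2 / 16) he0
  -- choice of `R`
  obtain ⟨R, hR⟩ := pow_unbounded_of_one_lt
    ((K * (2 * M) ^ 2 + K * 3 ^ 2) / (ε₁ ^ 2 / 16)) (one_lt_two : (1 : ℝ) < 2)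
  have hpow : (2 : ℝ) ^ R * (1 / 2 : ℝ) ^ R = 1 := by
    rw [← mul_pow]; norm_num
  have hRp : (0 : ℝ) < 2 ^ R := by positivity
  have hR' : (K * (2 * M) ^ 2 + K * 3 ^ 2) * (1 / 2 : ℝ) ^ R ≤ ε₁ ^ 2 / 16 := by
    rw [div_lt_iff₀ he0] at hR
    have h2 : (0 : ℝ) < (1 / 2 : ℝ) ^ R := by positivity
    have h3 := mul_le_mul_of_nonneg_right hR.le h2.le
    calc _ ≤ _ := h3
      _ = (2 ^ R * (1 / 2 : ℝ) ^ R) * (ε₁ ^ 2 / 16) := by ring
      _ = ε₁ ^ 2 / 16 := by rw [hpow, one_mul]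
  have hKM : 0 ≤ (K * (2 * M) ^ 2) * (1 / 2 : ℝ) ^ R := by positivity
  have hK3 : 0 ≤ ((K : ℝ) * 3 ^ 2) * (1 / 2 : ℝ) ^ R := by positivity
  have hRA : (K * (2 * M) ^ 2) * (1 / 2 : ℝ) ^ R ≤ ε₁ ^ 2 / 16 := by nlinarith
  have hRB : ((K : ℝ) * 3 ^ 2) * (1 / 2 : ℝ) ^ R ≤ ε₁ ^ 2 / 16 := by nlinarith
  obtain ⟨κ, hκ⟩ := hWT K l hl0 hl1 R
  -- choice of the small error
  have hN1 : (1 : ℝ) ≤ 2 ^ R := one_le_pow₀ (by norm_num)
  obtain ⟨e1, he1, he2⟩ : ∃ e1 : ℝ, 0 < e1 ∧ (2 ^ R) ^ 2 * e1 = ε₁ ^ 2 / 64 :=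
    ⟨ε₁ ^ 2 / 64 / (2 ^ R) ^ 2, by positivity, by field_simp⟩
  have he3 : 2 ^ R * e1 ≤ ε₁ ^ 2 / 64 := by
    have : 2 ^ R * e1 ≤ (2 ^ R) ^ 2 * e1 := by
      apply mul_le_mul_of_nonneg_right _ he1.le
      nlinarith
    linarith
  have hε4 : ε₁ ^ 2 ≤ ε₁ := by nlinarith
  have he4 : 2 ^ R * e1 ≤ ε₁ ^ 2 / 16 := by linarith [sq_nonneg ε₁]
  obtain ⟨z, hz1, hz2⟩ := H e1 he1
  -- the finite family
  obtain ⟨r, hr1, hr2⟩ := umb_halv A hH R
    ((Fin m ⊕ Fin m) ⊕ (Fin K ⊕ Fin K) ⊕ (Fin K × Fin m) ⊕ Fin K)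
    (Sum.elim (Sum.elim a fun j => star (a j)) (Sum.elim (Sum.elim z fun k => star (z k))
      (Sum.elim (fun p => star (z p.1 * a p.2 - a p.2 * z p.1) *
        (z p.1 * a p.2 - a p.2 * z p.1)) fun k =>
        (1 - (star (z k) * z k + z k * star (z k))) *
          (1 - (star (z k) * z k + z k * star (z k)))))) e1 he1
  obtain ⟨hv1, hA⟩ := hGA A (2 ^ R) r (fun w => z (κ w)) hr1 fun w => hz1 (κ w)
  have hB := hGB A (2 ^ R) r (fun w => z (κ w)) hr1 fun w => hz1 (κ w)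
  refine ⟨∑ w, star (r w) * z (κ w) * r w, umb_norm A _ hv1, fun T hT => ?_⟩
  obtain ⟨t1, t2, -, -, -, -, -, -, t9, -⟩ := hTB A T hT
  obtain ⟨q1, q2⟩ := hr2 T hT
  obtain ⟨y1, y2, y3⟩ := hz2 T hT
  have hzn : ∀ k, ‖z k‖ ≤ 1 := fun k => umb_norm A _ (hz1 k)
  have hB' := hB T hT e1 he1.le q1 (fun w => (q2 w).1)
    (fun w => ((q2 w).2 (Sum.inr (Sum.inl (Sum.inl (κ w))))).1)
    (fun w => ((q2 w).2 (Sum.inr (Sum.inl (Sum.inr (κ w))))).1) (fun w => y1 (κ w))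
  have hN2 : ((2 ^ R : ℕ) : ℝ) = 2 ^ R := by push_cast; rfl
  rw [hN2] at hB'
  have hsmall : 4 * (2 ^ R) ^ 2 * e1 ≤ ε₁ := by nlinarith
  have hsmall2 : 8 * (2 ^ R) ^ 2 * e1 ≤ ε₁ / 2 := by nlinarith
  refine ⟨hB'.1.trans (hsmall.trans hε2), hB'.2.trans ?_, fun j => ?_⟩
  · have hD : ∀ k, star (1 - (star (z k) * z k + z k * star (z k))) =
        1 - (star (z k) * z k + z k * star (z k)) := by
      intro k
      simp only [star_sub, star_one, star_add, star_mul, star_star]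
    have hs := umb_sum A T K R l κ hκ r
      (fun k => (1 - (star (z k) * z k + z k * star (z k))) *
          (1 - (star (z k) * z k + z k * star (z k))))
      (fun k => n2 T (1 - (star (z k) * z k + z k * star (z k)))) (ε₁ ^ 2 / 16) e1 3
      (fun k => by
        rw [t2]
        rw [hD]) (fun k => t1 _)
      (fun w k => ((q2 w).2 (Sum.inr (Sum.inr (Sum.inr k)))).2) y2
      (fun k => by
        refine (t9 _).trans ?_
        have h1 : ‖(1 : A)‖ ≤ 1 := by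
          have := umb_norm A (1 : A) (by rw [star_one, one_mul])
          exact this
        have h2 : ‖star (z k) * z k‖ ≤ 1 := by
          rw [CStarRing.norm_star_mul_self]
          nlinarith [norm_nonneg (z k), hzn k]
        have h3 : ‖z k * star (z k)‖ ≤ 1 := by
          rw [CStarRing.norm_self_mul_star]
          nlinarith [norm_nonneg (z k), hzn k]
        calc _ ≤ ‖(1 : A)‖ + ‖star (z k) * z k + z k * star (z k)‖ := norm_sub_le _ _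
          _ ≤ ‖(1 : A)‖ + (‖star (z k) * z k‖ + ‖z k * star (z k)‖) := by
            gcongr
            exact norm_add_le _ _
          _ ≤ 3 := by linarith) hRB he4
    have h5 := umb_sqrt ε₁ _ hε1.le hs
    linarith
  · have hs := umb_sum A T K R l κ hκ r
      (fun k => star (z k * a j - a j * z k) * (z k * a j - a j * z k))
      (fun k => n2 T (z k * a j - a j * z k)) (ε₁ ^ 2 / 16) e1 (2 * M)
      (fun k => by rw [t2]) (fun k => t1 _)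
      (fun w k => ((q2 w).2 (Sum.inr (Sum.inr (Sum.inl (k, j))))).2) (y3 j)
      (fun k => by
        refine (t9 _).trans ?_
        have h2 : ‖z k * a j‖ ≤ M := by
          refine (norm_mul_le _ _).trans ?_
          nlinarith [norm_nonneg (z k), hzn k, norm_nonneg (a j), hM j]
        have h3 : ‖a j * z k‖ ≤ M := by
          refine (norm_mul_le _ _).trans ?_
          nlinarith [norm_nonneg (z k), hzn k, norm_nonneg (a j), hM j]
        calc _ ≤ ‖z k * a j‖ + ‖a j * z k‖ := norm_sub_le _ _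
          _ ≤ 2 * M := by linarith) hRA he4
    have h5 := umb_sqrt ε₁ _ hε1.le hs
    have hA' := hA T hT (a j) e1 he1.le (fun w => ((q2 w).2 (Sum.inl (Sum.inl j))).1)
      (fun w => ((q2 w).2 (Sum.inl (Sum.inr j))).1)
    rw [hN2] at hA'
    refine hA'.trans ?_
    nlinarith

end Pool.Agent.H270R2.UM
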